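import Pool.Agent.P.MP_c009d0_co.Defs
import Pool.Agent.P.MP_c009d0_co.PartB

namespace Pool.Agent.Results.MP_c009d0_co.Answer

open Pool.Agent.P.MP_c009d0_co

theorem result (r : ℕ) (hr : 0 < r) :
    (∀ k : ℕ, 2 ≤ k → ∃ (n : ℕ) (W : Set (Finset (Fin n))),
      IsSimpleGame W ∧ IsCompleteGame W ∧ (shiftMinTypes W).ncard = r ∧
        TradeRobust W k ∧ ¬ TradeRobust W (k + 1)) ↔ 3 ≤ r := by
  constructor
  · intro h
    by_contra h3
    obtain ⟨n, W, h1, h2, h4, h5, h6⟩ := h 3 (by omega)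
    exact h6 (gameA h1 h2 (by omega) h5 _)
  · intro h k hk
    obtain ⟨n, μ, H, h1, h2⟩ := partB r k h hk
    obtain ⟨W, a1, a2, a3, a4⟩ := gameB hr H
    exact ⟨n, W, a1, a2, a3, (a4 _).2 h1, mt (a4 _).1 h2⟩

end Pool.Agent.Results.MP_c009d0_co.Answer
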